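import Mathlib

/-!
# Bowen's spiral in the order-`k` triangular tiling
-/

namespace Pool.Agent.X153.PG

/-- A stage of the spiral: the current centre and the edges `(i, j)`, `i < j`, drawn so far. -/
structure Stage where
  cur : ℕ
  edges : Finset (ℕ × ℕ)

/-- Degree of the vertex `v` in the edge set `E`. -/
def deg (E : Finset (ℕ × ℕ)) (v : ℕ) : ℕ := (E.filter (fun e => e.1 = v ∨ e.2 = v)).card

/-- The two edges that always come with the new vertex `m`. -/
def base (m : ℕ) (s : Stage) : Finset (ℕ × ℕ) := insert (m - 1, m) (insert (s.cur, m) s.edges)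

/-- Add the vertex `m`. -/
def addVertex (k m : ℕ) (s : Stage) : Stage :=
  if deg (base m s) s.cur = k then ⟨s.cur + 1, insert (s.cur + 1, m) (base m s)⟩
  else ⟨s.cur, base m s⟩

/-- The stage with vertices `0, …, n - 1`. -/
def spiral (k : ℕ) : ℕ → Stage
  | 0 => ⟨0, ∅⟩
  | 1 => ⟨0, ∅⟩
  | (m + 2) => addVertex k (m + 1) (spiral k (m + 1))

theorem spiral_succ (k m : ℕ) (hm : 1 ≤ m) : spiral k (m + 1) = addVertex k m (spiral k m) := by
  obtain ⟨j, rfl⟩ : ∃ j, m = j + 1 := ⟨m - 1, by omega⟩
  rfl

/-- all edges live below `n`. -/
def Below (E : Finset (ℕ × ℕ)) (n : ℕ) : Prop := ∀ e ∈ E, e.1 < e.2 ∧ e.2 < n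

theorem deg_insert_new {E : Finset (ℕ × ℕ)} {i m : ℕ} (h : (i, m) ∉ E) (v : ℕ) :
    deg (insert (i, m) E) v = deg E v + (if i = v ∨ m = v then 1 else 0) := by
  unfold deg
  rw [Finset.filter_insert]
  by_cases h' : i = v ∨ m = v
  · simp only [h', if_true]
    rw [Finset.card_insert_of_notMem]
    intro h2
    exact h (Finset.mem_filter.1 h2).1
  · simp only [h', if_false, add_zero]

theorem deg_of_below {E : Finset (ℕ × ℕ)} {n : ℕ} (h : Below E n) {v : ℕ} (hv : n ≤ v) :
    deg E v = 0 := by
  unfold deg
  rw [Finset.card_eq_zero, Finset.filter_eq_empty_iff]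
  intro e he h2
  have := h e he
  omega

section
variable {n : ℕ} {s : Stage}

theorem notMem_of_below (h : Below s.edges n) (i : ℕ) : (i, n) ∉ s.edges := by
  intro h2
  have := (h _ h2).2
  simp at this

theorem deg_base (h : Below s.edges n) (hc : s.cur + 2 ≤ n) (v : ℕ) :
    deg (base n s) v = deg s.edges v + (if s.cur = v ∨ n = v then 1 else 0)
      + (if n - 1 = v ∨ n = v then 1 else 0) := by
  unfold base
  rw [deg_insert_new, deg_insert_new (notMem_of_below h _)]
  simp only [Finset.mem_insert, Prod.mk.injEq, not_or]
  refine ⟨fun h2 => by omega, notMem_of_below h _⟩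

theorem card_base (h : Below s.edges n) (hc : s.cur + 2 ≤ n) :
    (base n s).card = s.edges.card + 2 := by
  unfold base
  rw [Finset.card_insert_of_notMem, Finset.card_insert_of_notMem (notMem_of_below h _)]
  simp only [Finset.mem_insert, Prod.mk.injEq, not_or]
  refine ⟨fun h2 => by omega, notMem_of_below h _⟩

theorem below_base (h : Below s.edges n) (hc : s.cur + 2 ≤ n) : Below (base n s) (n + 1) := by
  intro e he
  unfold base at he
  simp only [Finset.mem_insert] at he
  rcases he with rfl | rfl | he
  · simp; omega
  · simp; omega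
  · have := h e he
    omega

theorem notMem_base (h : Below s.edges n) (hc : s.cur + 3 ≤ n) : (s.cur + 1, n) ∉ base n s := by
  unfold base
  simp only [Finset.mem_insert, Prod.mk.injEq, not_or]
  refine ⟨fun h2 => by omega, fun h2 => by omega, notMem_of_below h _⟩

end

/-- The invariants of stage `n ≥ 2`, for `k ≥ 7`. -/
structure Inv (k n : ℕ) : Prop where
  below : Below (spiral k n).edges n
  card : (spiral k n).edges.card + 3 = 2 * n + (spiral k n).cur
  zero : (spiral k n).cur = 0 → deg (spiral k n).edges 0 + 1 = n ∧ n ≤ k
  one : (spiral k n).cur = 1 → 3 ≤ deg (spiral k n).edges 1 ∧ k + 1 ≤ n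
  /-- the current vertex -/
  curdeg : 1 ≤ (spiral k n).cur →
    deg (spiral k n).edges (spiral k n).cur + (k - 4) * ((spiral k n).cur + 1) + 6
      = n + k + (spiral k ((spiral k n).cur + 1)).cur
  curlt : 1 ≤ (spiral k n).cur → deg (spiral k n).edges (spiral k n).cur < k
  curge : 2 ≤ (spiral k n).cur →
    4 + (spiral k ((spiral k n).cur + 1)).cur ≤ deg (spiral k n).edges (spiral k n).cur
      + (spiral k (spiral k n).cur).cur
  /-- vertices after the current one -/
  later : ∀ v, (spiral k n).cur < v → 2 ≤ v → v < n →
    deg (spiral k n).edges v + (spiral k v).cur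
      = 2 + (spiral k (v + 1)).cur + (if v + 1 < n then 1 else 0)
  later1 : (spiral k n).cur < 1 → deg (spiral k n).edges 1 = 1 + (if 2 < n then 1 else 0)
  closed : ∀ v, v < (spiral k n).cur → deg (spiral k n).edges v = k


theorem cur_succ (k m : ℕ) (hm : 1 ≤ m) :
    (spiral k (m + 1)).cur = (spiral k m).cur ∨ (spiral k (m + 1)).cur = (spiral k m).cur + 1 := by
  rw [spiral_succ k m hm]
  unfold addVertex
  split_ifs
  · right; rfl
  · left; rfl

theorem spiral_two (k : ℕ) (hk : 7 ≤ k) : spiral k 2 = ⟨0, {(0, 1)}⟩ := by
  have h1 : spiral k 2 = addVertex k 1 ⟨0, ∅⟩ := rfl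
  rw [h1]
  unfold addVertex
  have hb : base 1 ⟨0, ∅⟩ = {((0 : ℕ), (1 : ℕ))} := by
    unfold base
    simp
  rw [hb]
  have hd : deg {((0 : ℕ), (1 : ℕ))} 0 = 1 := by decide
  simp only [hd]
  rw [if_neg (by omega)]

theorem inv_two (k : ℕ) (hk : 7 ≤ k) : Inv k 2 := by
  have h2 := spiral_two k hk
  constructor
  · rw [h2]
    intro e he
    simp only [Finset.mem_singleton] at he
    subst he
    simp
  · rw [h2]; simp
  · rw [h2]; intro _; exact ⟨by decide, by omega⟩
  · rw [h2]; simp
  · rw [h2]; simp
  · rw [h2]; simp
  · rw [h2]; simp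
  · intro v _ h3 h4; omega
  · rw [h2]; intro _; decide
  · rw [h2]; intro v hv; simp at hv

theorem inv_succ (q n : ℕ) (hq : 3 ≤ q) (hn : 2 ≤ n)
    (ih : ∀ m, 2 ≤ m → m ≤ n → Inv (q + 4) m ∧ (spiral (q + 4) m).cur + 2 ≤ m) :
    Inv (q + 4) (n + 1) ∧ (spiral (q + 4) (n + 1)).cur + 2 ≤ n + 1 := by
  obtain ⟨hI, hcn⟩ := ih n hn le_rfl
  have hs := spiral_succ (q + 4) n (by omega)
  set s := spiral (q + 4) n with hsdef
  have hsub : q + 4 - 4 = q := by omega
  have hB : Below s.edges n := hI.below
  have hbd : ∀ v, deg (base n s) v = deg s.edges v + (if s.cur = v ∨ n = v then 1 else 0)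
      + (if n - 1 = v ∨ n = v then 1 else 0) := deg_base hB hcn
  have hcd : deg (base n s) s.cur = deg s.edges s.cur + 1 := by
    rw [hbd, if_pos (Or.inl rfl), if_neg (by omega)]
  by_cases hclose : deg (base n s) s.cur = q + 4
  · -- closing step
    have hD : deg s.edges s.cur + 1 = q + 4 := by omega
    have hc3 : s.cur + 3 ≤ n := by
      by_cases h0 : s.cur = 0
      · have := (hI.zero h0).1
        rw [← hsdef] at this
        rw [h0] at hD
        omega
      · have h1 : 1 ≤ s.cur := by omega
        have h2 := hI.curdeg h1
        have h3 := (ih (s.cur + 1) (by omega) (by omega)).2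
        rw [hsub] at h2
        have h4 : 3 * (s.cur + 1) ≤ q * (s.cur + 1) := Nat.mul_le_mul_right _ hq
        rw [← hsdef] at h2
        omega
    have hs' : spiral (q + 4) (n + 1) = ⟨s.cur + 1, insert (s.cur + 1, n) (base n s)⟩ := by
      rw [hs]; unfold addVertex; rw [if_pos hclose]
    have hdeg' : ∀ v, deg (insert (s.cur + 1, n) (base n s)) v
        = deg (base n s) v + (if s.cur + 1 = v ∨ n = v then 1 else 0) :=
      fun v => deg_insert_new (notMem_base hB hc3) v
    have hcur' : (spiral (q + 4) (n + 1)).cur = s.cur + 1 := by rw [hs']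
    refine ⟨?_, by rw [hcur']; omega⟩
    -- the degree of the new current vertex
    have hnew : deg (insert (s.cur + 1, n) (base n s)) (s.cur + 1) = deg s.edges (s.cur + 1) + 1 := by
      rw [hdeg', hbd, if_neg (by omega), if_neg (by omega), if_pos (Or.inl rfl)]
    have hnew0 : s.cur = 0 → deg s.edges (s.cur + 1) = 2 := by
      intro h0
      have := hI.later1 (by rw [← hsdef]; omega)
      rw [← hsdef] at this
      rw [h0, zero_add, this, if_pos (by omega)]
    have hnew1 : 1 ≤ s.cur → deg s.edges (s.cur + 1) + (spiral (q + 4) (s.cur + 1)).cur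
        = 3 + (spiral (q + 4) (s.cur + 2)).cur := by
      intro h1
      have := hI.later (s.cur + 1) (by rw [← hsdef]; omega) (by omega) (by omega)
      rw [← hsdef, if_pos (by omega)] at this
      have e : s.cur + 1 + 1 = s.cur + 2 := rfl
      rw [e] at this
      omega
    have hcs : 1 ≤ s.cur → (spiral (q + 4) (s.cur + 2)).cur = (spiral (q + 4) (s.cur + 1)).cur ∨
        (spiral (q + 4) (s.cur + 2)).cur = (spiral (q + 4) (s.cur + 1)).cur + 1 := by
      intro _
      exact cur_succ (q + 4) (s.cur + 1) (by omega)
    constructor
    · rw [hs']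
      intro e he
      simp only [Finset.mem_insert] at he
      rcases he with rfl | he
      · simp; omega
      · exact below_base hB hcn e he
    · rw [hs']
      simp only
      rw [Finset.card_insert_of_notMem (notMem_base hB hc3), card_base hB hcn]
      have := hI.card
      rw [← hsdef] at this
      omega
    · rw [hcur']; intro h; omega
    · rw [hs']
      intro h
      simp only at h
      have h0 : s.cur = 0 := by omega
      have h5 := (hI.zero h0).1
      have h6 := hnew0 h0
      rw [← hsdef] at h5
      rw [h0] at hnew h6 hD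
      simp only [h0]
      rw [zero_add] at hnew h6
      constructor
      · rw [zero_add, hnew, h6]
      · omega
    · intro _
      rw [hs']
      simp only
      rw [hnew, hsub]
      by_cases h0 : s.cur = 0
      · rw [hnew0 h0]
        have h5 := (hI.zero h0).1
        rw [← hsdef] at h5
        rw [h0] at hD
        have h2c : (spiral (q + 4) 2).cur = 0 := by rw [spiral_two _ (by omega)]
        rw [h0]
        norm_num
        rw [h2c]
        omega
      · have h1 : 1 ≤ s.cur := by omega
        have h2 := hI.curdeg h1
        rw [← hsdef, hsub] at h2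
        have h3 := hnew1 h1
        have e : q * (s.cur + 1 + 1) = q * (s.cur + 1) + q := by ring
        rw [e]
        have e2 : s.cur + 1 + 1 = s.cur + 2 := rfl
        rw [e2]
        omega
    · intro _
      rw [hs']
      simp only
      rw [hnew]
      by_cases h0 : s.cur = 0
      · rw [hnew0 h0]; omega
      · have h1 : 1 ≤ s.cur := by omega
        have h3 := hnew1 h1
        have h4 := hcs h1
        omega
    · intro h
      rw [hs'] at h ⊢
      simp only at h ⊢
      rw [hnew]
      have h1 : 1 ≤ s.cur := by omega
      have h3 := hnew1 h1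
      have e2 : s.cur + 1 + 1 = s.cur + 2 := rfl
      rw [e2]
      omega
    · intro v hv h2 hvn
      rw [hs'] at hv
      simp only at hv
      by_cases hvn' : v < n
      · have h3 := hI.later v (by rw [← hsdef]; omega) h2 hvn'
        rw [← hsdef] at h3
        have h4 : deg (spiral (q + 4) (n + 1)).edges v
            = deg s.edges v + (if n - 1 = v then 1 else 0) := by
          rw [hs']
          simp only
          rw [hdeg', hbd, if_neg (show ¬ (s.cur = v ∨ n = v) by omega),
            if_neg (show ¬ (s.cur + 1 = v ∨ n = v) by omega)]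
          by_cases h5 : n - 1 = v
          · rw [if_pos (Or.inl h5), if_pos h5]
          · rw [if_neg (by omega), if_neg h5]
        rw [h4]
        by_cases h5 : n - 1 = v
        · rw [if_pos h5, if_pos (by omega)]
          rw [if_neg (by omega)] at h3
          omega
        · rw [if_neg h5, if_pos (by omega)]
          rw [if_pos (by omega)] at h3
          omega
      · have hvn2 : v = n := by omega
        subst hvn2
        rw [hcur', if_neg (by omega)]
        rw [hs']
        simp only
        rw [hdeg', hbd, deg_of_below hB le_rfl, if_pos (Or.inr rfl), if_pos (Or.inr rfl),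
          if_pos (Or.inr rfl)]
        rw [← hsdef]
        omega
    · rw [hcur']; intro h; omega
    · intro v hv
      rw [hcur'] at hv
      rw [hs']
      simp only
      rw [hdeg', hbd]
      by_cases h5 : v = s.cur
      · subst h5
        rw [if_pos (Or.inl rfl), if_neg (by omega), if_neg (by omega)]
        omega
      · rw [if_neg (by omega), if_neg (by omega), if_neg (by omega)]
        have := hI.closed v (by rw [← hsdef]; omega)
        rw [← hsdef] at this
        omega
  · -- no closing
    have hD : deg s.edges s.cur + 1 ≠ q + 4 := by omega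
    have hs' : spiral (q + 4) (n + 1) = ⟨s.cur, base n s⟩ := by
      rw [hs]; unfold addVertex; rw [if_neg hclose]
    have hcur' : (spiral (q + 4) (n + 1)).cur = s.cur := by rw [hs']
    refine ⟨?_, by rw [hcur']; omega⟩
    constructor
    · rw [hs']
      exact below_base hB hcn
    · rw [hs']
      simp only
      rw [card_base hB hcn]
      have := hI.card
      rw [← hsdef] at this
      omega
    · intro h
      rw [hcur'] at h
      rw [hs']
      simp only
      have h5 := hI.zero h
      rw [← hsdef] at h5
      rw [h] at hcd hD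
      rw [hcd]
      omega
    · intro h
      rw [hcur'] at h
      rw [hs']
      simp only
      have h5 := hI.one h
      rw [← hsdef] at h5
      rw [h] at hcd hD
      rw [hcd]
      omega
    · intro h
      rw [hcur'] at h
      have h5 := hI.curdeg h
      rw [← hsdef] at h5
      rw [hs']
      simp only
      rw [hcd]
      omega
    · intro h
      rw [hcur'] at h
      have h5 := hI.curlt h
      rw [← hsdef] at h5
      rw [hs']
      simp only
      rw [hcd]
      omega
    · intro h
      rw [hcur'] at h
      have h5 := hI.curge h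
      rw [← hsdef] at h5
      rw [hs']
      simp only
      rw [hcd]
      omega
    · intro v hv h2 hvn
      rw [hs'] at hv
      simp only at hv
      by_cases hvn' : v < n
      · have h3 := hI.later v (by rw [← hsdef]; omega) h2 hvn'
        rw [← hsdef] at h3
        have h4 : deg (spiral (q + 4) (n + 1)).edges v
            = deg s.edges v + (if n - 1 = v then 1 else 0) := by
          rw [hs']
          simp only
          rw [hbd, if_neg (show ¬ (s.cur = v ∨ n = v) by omega)]
          by_cases h5 : n - 1 = v
          · rw [if_pos (Or.inl h5), if_pos h5]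
          · rw [if_neg (by omega), if_neg h5]
        rw [h4]
        by_cases h5 : n - 1 = v
        · rw [if_pos h5, if_pos (by omega)]
          rw [if_neg (by omega)] at h3
          omega
        · rw [if_neg h5, if_pos (by omega)]
          rw [if_pos (by omega)] at h3
          omega
      · have hvn2 : v = n := by omega
        subst hvn2
        rw [hcur', if_neg (by omega)]
        rw [hs']
        simp only
        rw [hbd, deg_of_below hB le_rfl, if_pos (Or.inr rfl), if_pos (Or.inr rfl)]
        rw [← hsdef]
        omega
    · intro h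
      rw [hcur'] at h
      have h3 := hI.later1 (by rw [← hsdef]; exact h)
      rw [← hsdef] at h3
      rw [hs']
      simp only
      rw [hbd, h3]
      by_cases h2n : n = 2
      · subst h2n
        rw [if_neg (by omega), if_neg (by omega), if_pos (by omega), if_pos (by omega)]
      · rw [if_pos (by omega), if_neg (by omega), if_neg (by omega), if_pos (by omega)]
    · intro v hv
      rw [hcur'] at hv
      rw [hs']
      simp only
      rw [hbd, if_neg (by omega), if_neg (by omega)]
      have := hI.closed v (by rw [← hsdef]; omega)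
      rw [← hsdef] at this
      omega

theorem inv_all (q : ℕ) (hq : 3 ≤ q) (n : ℕ) (hn : 2 ≤ n) :
    Inv (q + 4) n ∧ (spiral (q + 4) n).cur + 2 ≤ n := by
  induction n using Nat.strong_induction_on with
  | _ n ih =>
    by_cases h2 : n = 2
    · subst h2
      refine ⟨inv_two _ (by omega), ?_⟩
      rw [spiral_two _ (by omega)]
    · obtain ⟨m, rfl⟩ : ∃ m, n = m + 1 := ⟨n - 1, by omega⟩
      exact inv_succ q m hq (by omega) (fun j hj hjm => ih j (by omega) hj)

end Pool.Agent.X153.PG
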