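import Mathlib
import Pool.Agent.X153.PG.Spiral

/-!
# The quadratic form behind the spiral
-/

namespace Pool.Agent.X153.PG

/-- `F n c` is nonnegative exactly when `2 n - 3 + c` is at most the bound. -/
def F (q n c : ℤ) : ℤ := n ^ 2 + c ^ 2 - q * n * c - 6 * (n + c) + q + 10

theorem F_vieta (q n c x : ℤ) : F q n c = (n - q * c - 6 + x) * (n - x) + F q c x := by
  unfold F; ring

theorem F_all (q : ℕ) (hq : 3 ≤ q) (n : ℕ) (hn : 2 ≤ n) :
    0 ≤ F q n (spiral (q + 4) n).cur ∧ F q n ((spiral (q + 4) n).cur + 1) < 0 := by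
  induction n using Nat.strong_induction_on with
  | _ n ih =>
    obtain ⟨hI, hcn⟩ := inv_all q hq n hn
    have hqz : (3 : ℤ) ≤ q := by exact_mod_cast hq
    have hnz : (2 : ℤ) ≤ n := by exact_mod_cast hn
    have hsub : q + 4 - 4 = q := by omega
    rcases Nat.eq_zero_or_pos (spiral (q + 4) n).cur with h0 | h1
    · have h2 := (hI.zero h0).2
      have h2z : (n : ℤ) ≤ q + 4 := by exact_mod_cast h2
      rw [h0]
      constructor
      · unfold F
        push_cast
        nlinarith [sq_nonneg ((n : ℤ) - 3)]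
      · have e : F q n (((0 : ℕ) : ℤ) + 1) = ((n : ℤ) - 1) * (n - (q + 5)) := by
          unfold F; push_cast; ring
        rw [e]
        nlinarith
    · set c := (spiral (q + 4) n).cur with hc
      have hcd := hI.curdeg h1
      have hclt := hI.curlt h1
      rw [hsub, ← hc] at hcd
      rw [← hc] at hclt
      have hm := (inv_all q hq (c + 1) (by omega)).2
      set D := deg (spiral (q + 4) n).edges c with hD
      set x := (spiral (q + 4) (c + 1)).cur with hx
      constructor
      · by_cases hc1 : c = 1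
        · have h2 := (hI.one hc1).2
          have h2z : (q : ℤ) + 5 ≤ n := by
            have : q + 5 ≤ n := by omega
            exact_mod_cast this
          have e : F q n (c : ℤ) = ((n : ℤ) - 1) * (n - (q + 5)) := by
            rw [hc1]; unfold F; push_cast; ring
          rw [e]
          nlinarith
        · have hc2 : 2 ≤ c := by omega
          have hge := hI.curge hc2
          rw [← hc] at hge
          have hA := (ih c (by omega) hc2).1
          have hcc := (inv_all q hq c hc2).2
          set y := (spiral (q + 4) c).cur with hy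
          rw [F_vieta q n c y]
          have hcdz : (D : ℤ) + q * (c + 1) + 6 = n + (q + 4) + x := by exact_mod_cast hcd
          have hgez : (4 : ℤ) + x ≤ D + y := by exact_mod_cast hge
          have hccz : (y : ℤ) + 2 ≤ c := by exact_mod_cast hcc
          have hcnz : (c : ℤ) + 2 ≤ n := by exact_mod_cast hcn
          have h5 : (0 : ℤ) ≤ n - q * c - 6 + y := by nlinarith
          have h6 : (0 : ℤ) ≤ n - y := by linarith
          have := mul_nonneg h5 h6
          linarith
      · have hB := (ih (c + 1) (by omega) (by omega)).2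
        rw [← hx] at hB
        have e : F q n ((c : ℤ) + 1) = (n - q * (c + 1) - 6 + (x + 1)) * (n - (x + 1))
            + F q (c + 1) (x + 1) := F_vieta q n (c + 1) (x + 1)
        rw [e]
        have hcdz : (D : ℤ) + q * (c + 1) + 6 = n + (q + 4) + x := by exact_mod_cast hcd
        have hcltz : (D : ℤ) + 1 ≤ q + 4 := by exact_mod_cast hclt
        have hmz : (x : ℤ) + 2 ≤ c + 1 := by exact_mod_cast hm
        have hcnz : (c : ℤ) + 2 ≤ n := by exact_mod_cast hcn
        have h5 : (0 : ℤ) ≤ -(n - q * (c + 1) - 6 + (x + 1)) := by linarith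
        have h6 : (0 : ℤ) ≤ n - (x + 1) := by linarith
        have := mul_nonneg h5 h6
        push_cast at hB
        linarith

/-- the bound of the problem, with `a = π / α`. -/
noncomputable def U (a : ℝ) (n : ℕ) : ℝ :=
  a * n - Real.sqrt ((a - 1) * (a - 3) * (n : ℝ) ^ 2 + 6 * (a - 1) * n - 2 * a + 3)

theorem floor_U (q : ℕ) (hq : 3 ≤ q) (n : ℕ) (hn : 1 ≤ n) :
    (((spiral (q + 4) n).edges.card : ℕ) : ℤ) = ⌊U (((q + 4 : ℕ) : ℝ) / 2) n⌋ := by
  rcases Nat.lt_or_ge n 2 with h1 | h2
  · have hn1 : n = 1 := by omega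
    subst hn1
    have e : (spiral (q + 4) 1).edges.card = 0 := rfl
    rw [e]
    symm
    rw [Int.floor_eq_iff]
    unfold U
    push_cast
    have e2 : ((((q : ℝ) + 4) / 2 - 1) * (((q : ℝ) + 4) / 2 - 3) * 1 ^ 2
        + 6 * (((q : ℝ) + 4) / 2 - 1) * 1 - 2 * (((q : ℝ) + 4) / 2) + 3)
        = (((q : ℝ) + 4) / 2) ^ 2 := by ring
    rw [e2, Real.sqrt_sq (by positivity)]
    constructor <;> linarith
  · obtain ⟨hI, hcn⟩ := inv_all q hq n h2
    obtain ⟨hA, hB⟩ := F_all q hq n h2
    have hcard := hI.card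
    set c := (spiral (q + 4) n).cur with hc
    set E := (spiral (q + 4) n).edges.card with hE
    have hqr : (3 : ℝ) ≤ q := by exact_mod_cast hq
    have hnr : (2 : ℝ) ≤ n := by exact_mod_cast h2
    have hcnr : (c : ℝ) + 2 ≤ n := by exact_mod_cast hcn
    have hEr : (E : ℝ) = 2 * n + c - 3 := by
      have : (E : ℝ) + 3 = 2 * n + c := by exact_mod_cast hcard
      linarith
    have hAr : (0 : ℝ) ≤ (n : ℝ) ^ 2 + (c : ℝ) ^ 2 - q * n * c - 6 * (n + c) + q + 10 := by
      have := hA
      unfold F at this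
      exact_mod_cast this
    have hBr : (n : ℝ) ^ 2 + ((c : ℝ) + 1) ^ 2 - q * n * (c + 1) - 6 * (n + (c + 1)) + q + 10
        < 0 := by
      have := hB
      unfold F at this
      exact_mod_cast this
    symm
    rw [Int.floor_eq_iff]
    unfold U
    push_cast
    constructor
    · have h3 : Real.sqrt ((((q : ℝ) + 4) / 2 - 1) * (((q : ℝ) + 4) / 2 - 3) * (n : ℝ) ^ 2
          + 6 * (((q : ℝ) + 4) / 2 - 1) * n - 2 * (((q : ℝ) + 4) / 2) + 3)
          ≤ ((q : ℝ) + 4) / 2 * n - E := by
        rw [Real.sqrt_le_iff]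
        constructor
        · rw [hEr]; nlinarith
        · rw [hEr]; nlinarith
      linarith
    · have h3 : ((q : ℝ) + 4) / 2 * n - (E + 1)
          < Real.sqrt ((((q : ℝ) + 4) / 2 - 1) * (((q : ℝ) + 4) / 2 - 3) * (n : ℝ) ^ 2
          + 6 * (((q : ℝ) + 4) / 2 - 1) * n - 2 * (((q : ℝ) + 4) / 2) + 3) := by
        apply Real.lt_sqrt_of_sq_lt
        rw [hEr]
        nlinarith
      linarith

theorem cur_unbounded (q : ℕ) (hq : 3 ≤ q) (v : ℕ) : ∃ n, v < (spiral (q + 4) n).cur := by
  refine ⟨q * (v + 1) + 20, ?_⟩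
  by_contra hcon
  push Not at hcon
  have hB := (F_all q hq (q * (v + 1) + 20) (by omega)).2
  set c := (spiral (q + 4) (q * (v + 1) + 20)).cur with hc
  unfold F at hB
  push_cast at hB
  have h1 : (c : ℤ) ≤ v := by exact_mod_cast hcon
  have hqz : (3 : ℤ) ≤ q := by exact_mod_cast hq
  have hc0 : (0 : ℤ) ≤ c := Int.natCast_nonneg _
  set N : ℤ := (q : ℤ) * (v + 1) + 20 with hN
  have h2 : (q : ℤ) * (c + 1) ≤ q * (v + 1) := by nlinarith
  have h3 : (20 : ℤ) ≤ N - q * (c + 1) := by linarith
  have h4 : (20 : ℤ) ≤ N := by nlinarith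
  nlinarith [mul_nonneg (by linarith : (0 : ℤ) ≤ N) (by linarith : (0 : ℤ) ≤ N - q * (c + 1) - 20),
    sq_nonneg ((c : ℤ) + 1 - 3)]

end Pool.Agent.X153.PG
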